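import Pool.Agent.W376.RTL.Par6
import Pool.Agent.W307.RT.Stm

namespace Pool.Agent.W376.RTL

open Pool.Agent.W307.RT Finset

lemma sum_sq_inv (K : ℕ) (hK : 4 ≤ K) : ∑ d ∈ Icc 5 K, (1 : ℝ) / (d : ℝ) ^ 2 ≤ 1 / 4 - 1 / K := by
  induction K, hK using Nat.le_induction with
  | base => norm_num
  | succ K hK ih =>
    rw [← Finset.insert_Icc_right_eq_Icc_add_one (by omega), Finset.sum_insert (by simp)]
    have hK0 : (0 : ℝ) < K := by
      have : 0 < K := by omega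
      exact_mod_cast this
    have h1 : (1 : ℝ) / ((K + 1 : ℕ) : ℝ) ^ 2 ≤ 1 / K - 1 / ((K + 1 : ℕ) : ℝ) := by
      push_cast
      rw [div_sub_div _ _ hK0.ne' (by positivity), div_le_div_iff₀ (by positivity) (by positivity)]
      nlinarith
    linarith

lemma sum_sq_inv' (K : ℕ) : ∑ d ∈ Icc 5 K, (1 : ℝ) / (d : ℝ) ^ 2 ≤ 1 / 4 := by
  rcases Nat.lt_or_ge K 4 with h | h
  · rw [Finset.Icc_eq_empty (by omega)]
    norm_num
  · have h1 := sum_sq_inv K h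
    have h2 : (0 : ℝ) ≤ 1 / K := by positivity
    linarith

/-- the good pairs -/
def GG (K : ℕ) : Finset (ℕ × ℕ) :=
  (Ioc 0 (27 * K) ×ˢ Ioc 0 K).filter (fun t => t.1.Coprime (3 * t.2) ∧ 3 * t.2 < t.1)

/-- pairs of multiples -/
def BB (K d : ℕ) : Finset (ℕ × ℕ) :=
  (Ioc 0 (27 * K)).filter (fun x => d ∣ x) ×ˢ (Ioc 0 K).filter (fun x => d ∣ x)

lemma card_BB (K d : ℕ) (hd : 0 < d) : ((BB K d).card : ℝ) ≤ 27 * (K : ℝ) ^ 2 * (1 / (d : ℝ) ^ 2) := by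
  unfold BB
  rw [card_product, Nat.Ioc_filter_dvd_card_eq_div, Nat.Ioc_filter_dvd_card_eq_div]
  push_cast
  have hd' : (0 : ℝ) < d := by exact_mod_cast hd
  have h1 : ((27 * K / d : ℕ) : ℝ) ≤ 27 * K / d := by
    have := Nat.cast_div_le (α := ℝ) (m := 27 * K) (n := d)
    push_cast at this
    exact this
  have h2 : ((K / d : ℕ) : ℝ) ≤ K / d := Nat.cast_div_le
  calc ((27 * K / d : ℕ) : ℝ) * ((K / d : ℕ) : ℝ) ≤ (27 * K / d) * (K / d) := by gcongr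
    _ = _ := by field_simp

lemma cover (K : ℕ) : Ioc 0 (27 * K) ×ˢ Ioc 0 K ⊆
    GG K ∪ ((Ioc 0 (3 * K) ×ˢ Ioc 0 K) ∪ (((Ioc 0 (27 * K)).filter (fun x => 3 ∣ x) ×ˢ Ioc 0 K) ∪
      (BB K 2 ∪ (Icc 5 K).biUnion (fun d => BB K d)))) := by
  rintro ⟨u, w⟩ h
  rw [mem_product, mem_Ioc, mem_Ioc] at h
  obtain ⟨⟨hu0, hu1⟩, hw0, hw1⟩ := h
  simp only at hu0 hu1 hw0 hw1
  by_contra hcon
  simp only [mem_union, not_or, GG, BB, mem_filter, mem_product, mem_Ioc, mem_biUnion, mem_Icc,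
    not_exists, not_and] at hcon
  obtain ⟨h1, h2, h3, h4, h5⟩ := hcon
  have h2' : 3 * w < u := by
    by_contra hc
    push Not at hc
    exact h2 ⟨hu0, by omega⟩ hw0 hw1
  have h3' : ¬ 3 ∣ u := by
    intro hd
    exact h3 ⟨⟨hu0, hu1⟩, hd⟩ hw0 hw1
  apply h1 ⟨⟨hu0, hu1⟩, hw0, hw1⟩ _ h2'
  apply Nat.Coprime.mul_right
  · rw [Nat.coprime_comm, Nat.Prime.coprime_iff_not_dvd Nat.prime_three]
    exact h3'
  · by_contra hnc
    obtain ⟨p, hp, hpu, hpw⟩ := Nat.Prime.not_coprime_iff_dvd.1 hnc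
    have hp2 : p ≠ 2 := by
      rintro rfl
      exact h4 ⟨⟨hu0, hu1⟩, hpu⟩ ⟨hw0, hw1⟩ hpw
    have hp3 : p ≠ 3 := by
      rintro rfl
      exact h3' hpu
    have hp4 : p ≠ 4 := by
      rintro rfl
      revert hp
      norm_num
    have hp5 : 5 ≤ p := by
      have := hp.two_le
      omega
    have hpK : p ≤ K := (Nat.le_of_dvd hw0 hpw).trans hw1
    exact h5 p ⟨hp5, hpK⟩ ⟨⟨hu0, hu1⟩, hpu⟩ ⟨hw0, hw1⟩ hpw

lemma card_GG (K : ℕ) : (3 / 2 : ℝ) * (K : ℝ) ^ 2 ≤ ((GG K).card : ℝ) := by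
  have h := card_le_card (cover K)
  have h1 : (Ioc 0 (27 * K) ×ˢ Ioc 0 K).card = 27 * K * K := by simp
  have h2 : (Ioc 0 (3 * K) ×ˢ Ioc 0 K).card = 3 * K * K := by simp
  have h3 : ((Ioc 0 (27 * K)).filter (fun x => 3 ∣ x) ×ˢ Ioc 0 K).card = 9 * K * K := by
    rw [card_product, Nat.Ioc_filter_dvd_card_eq_div]
    have : 27 * K / 3 = 9 * K := by omega
    rw [this]
    simp
  have h4 : 27 * K * K ≤ (GG K).card + (3 * K * K + (9 * K * K + ((BB K 2).card +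
      ∑ d ∈ Icc 5 K, (BB K d).card))) := by
    rw [← h1, ← h2, ← h3]
    refine h.trans ?_
    refine (card_union_le _ _).trans ?_
    refine Nat.add_le_add_left ?_ _
    refine (card_union_le _ _).trans ?_
    refine Nat.add_le_add_left ?_ _
    refine (card_union_le _ _).trans ?_
    refine Nat.add_le_add_left ?_ _
    refine (card_union_le _ _).trans ?_
    refine Nat.add_le_add_left ?_ _
    exact card_biUnion_le
  have h4' : (27 : ℝ) * K * K ≤ ((GG K).card : ℝ) + (3 * K * K + (9 * K * K + (((BB K 2).card : ℝ) +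
      ∑ d ∈ Icc 5 K, ((BB K d).card : ℝ)))) := by exact_mod_cast h4
  have h5 := card_BB K 2 (by norm_num)
  have h6 : ∑ d ∈ Icc 5 K, ((BB K d).card : ℝ) ≤ 27 * (K : ℝ) ^ 2 * (1 / 4) := by
    calc ∑ d ∈ Icc 5 K, ((BB K d).card : ℝ) ≤
        ∑ d ∈ Icc 5 K, 27 * (K : ℝ) ^ 2 * (1 / (d : ℝ) ^ 2) := by
          apply sum_le_sum
          intro d hd
          rw [mem_Icc] at hd
          exact card_BB K d (by omega)
      _ = 27 * (K : ℝ) ^ 2 * ∑ d ∈ Icc 5 K, (1 / (d : ℝ) ^ 2) := by rw [mul_sum]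
      _ ≤ _ := by
          apply mul_le_mul_of_nonneg_left (sum_sq_inv' K) (by positivity)
  push_cast at h5
  nlinarith

theorem low6 : LOW6 := by
  refine ⟨1 / 1944, 229582512, 54, by norm_num, fun T H hT hH => ?_⟩
  set K := T / 27 with hK
  have hKT : 27 * K ≤ T := Nat.mul_div_le T 27
  have hKT' : (T : ℝ) ≤ 54 * K := by
    have h1 : T < 27 * (K + 1) := Nat.lt_mul_div_succ T (by norm_num)
    have h2 : T ≤ 54 * K := by omega
    exact_mod_cast h2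
  have hG := card_GG K
  have hcard : (GG K).card ≤ (Cv 6 H).card := by
    classical
    apply card_le_card_of_injOn
      (fun t : ℕ × ℕ => (A6 (t.1 : ℤ) ((3 * t.2 : ℕ) : ℤ), B6 (t.1 : ℤ) ((3 * t.2 : ℕ) : ℤ)))
    · intro t ht
      rw [GG, coe_filter, Set.mem_ofPred_eq, mem_product, mem_Ioc, mem_Ioc] at ht
      obtain ⟨⟨⟨hu0, hu1⟩, hw0, hw1⟩, hc, hlt⟩ := ht
      have hv0 : (0 : ℤ) < ((3 * t.2 : ℕ) : ℤ) := by exact_mod_cast (by omega : 0 < 3 * t.2)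
      have huv : ((3 * t.2 : ℕ) : ℤ) < (t.1 : ℤ) := by exact_mod_cast hlt
      have huT : (t.1 : ℤ) ≤ (T : ℤ) := by exact_mod_cast hu1.trans hKT
      have hcz : IsCoprime (t.1 : ℤ) ((3 * t.2 : ℕ) : ℤ) := Nat.isCoprime_iff_coprime.2 hc
      have h3 : (3 : ℤ) ∣ ((3 * t.2 : ℕ) : ℤ) := by
        push_cast
        exact Dvd.intro _ rfl
      obtain ⟨g1, g2⟩ := height6 hv0 huv huT
      have hH' : (229582512 : ℤ) * (T : ℤ) ^ 24 ≤ (H : ℤ) := by exact_mod_cast hH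
      have g1' := g1.trans hH'
      have g2' := g2.trans hH'
      have b1 : |A6 (t.1 : ℤ) ((3 * t.2 : ℕ) : ℤ)| ≤ (H : ℤ) := by
        have h0 := abs_nonneg (A6 (t.1 : ℤ) ((3 * t.2 : ℕ) : ℤ))
        refine le_trans ?_ g1'
        generalize |A6 (t.1 : ℤ) ((3 * t.2 : ℕ) : ℤ)| = a at *
        rcases h0.eq_or_lt with h | h
        · rw [← h]; norm_num
        · have h1 : 1 ≤ a := h
          have h2 : 1 ≤ a ^ 2 := one_le_pow₀ h1
          nlinarith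
      have b2 : |B6 (t.1 : ℤ) ((3 * t.2 : ℕ) : ℤ)| ≤ (H : ℤ) := by
        refine le_trans ?_ g2'
        rw [← sq_abs]
        have h0 := abs_nonneg (B6 (t.1 : ℤ) ((3 * t.2 : ℕ) : ℤ))
        generalize |B6 (t.1 : ℤ) ((3 * t.2 : ℕ) : ℤ)| = a at *
        rcases h0.eq_or_lt with h | h
        · rw [← h]; norm_num
        · have h1 : 1 ≤ a := h
          nlinarith
      rw [abs_le] at b1 b2
      rw [Cv, coe_filter, Set.mem_ofPred_eq, mem_product, mem_Icc, mem_Icc]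
      exact ⟨⟨b1, b2⟩, disc6_ne hv0 huv, g1', g2', minimal6 hcz h3, hasT6 hv0 huv⟩
    · intro t ht t' ht' h
      rw [GG, coe_filter, Set.mem_ofPred_eq, mem_product, mem_Ioc, mem_Ioc] at ht ht'
      obtain ⟨⟨⟨hu0, hu1⟩, hw0, hw1⟩, hc, hlt⟩ := ht
      obtain ⟨⟨⟨hu0', hu1'⟩, hw0', hw1'⟩, hc', hlt'⟩ := ht'
      have hv0 : (0 : ℤ) < ((3 * t.2 : ℕ) : ℤ) := by exact_mod_cast (by omega : 0 < 3 * t.2)
      have huv : ((3 * t.2 : ℕ) : ℤ) < (t.1 : ℤ) := by exact_mod_cast hlt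
      have hv0' : (0 : ℤ) < ((3 * t'.2 : ℕ) : ℤ) := by exact_mod_cast (by omega : 0 < 3 * t'.2)
      have huv' : ((3 * t'.2 : ℕ) : ℤ) < (t'.1 : ℤ) := by exact_mod_cast hlt'
      simp only [Prod.mk.injEq] at h
      obtain ⟨e1, e2⟩ := inj6 hv0 huv hv0' huv' h.1 h.2
      apply Prod.ext
      · exact_mod_cast e1
      · have e3 : 3 * t.2 = 3 * t'.2 := by exact_mod_cast e2
        omega
  have hcard' : ((GG K).card : ℝ) ≤ ((Cv 6 H).card : ℝ) := by exact_mod_cast hcard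
  have hT0 : (0 : ℝ) ≤ T := Nat.cast_nonneg _
  have : (T : ℝ) ^ 2 ≤ (54 * K) ^ 2 := by gcongr
  nlinarith

end Pool.Agent.W376.RTL
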