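import Pool.Agent.W376.RTL.Pts

namespace Pool.Agent.W376.RTL

open Pool.Agent.W307.RT

/-- minimality -/
lemma minimal6 {u v : ℤ} (hc : IsCoprime u v) (h3v : 3 ∣ v) (p : ℕ) (hp : p.Prime) :
    ¬ ((p : ℤ) ^ 4 ∣ A6 u v ∧ (p : ℤ) ^ 6 ∣ B6 u v) := by
  rintro ⟨hA, hB⟩
  have hpI : Prime (p : ℤ) := Nat.prime_iff_prime_int.1 hp
  have h3I : Prime (3 : ℤ) := Int.prime_three
  -- 3 does not divide u
  have h3u : ¬ (3 : ℤ) ∣ u := by
    intro h
    exact h3I.not_unit (hc.isUnit_of_dvd' h h3v)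
  set m := M6 u v with hm
  set n := N6 u v with hn
  have h3n : (3 : ℤ) ∣ n := by
    rw [hn]
    unfold N6
    exact Dvd.dvd.mul_right (dvd_pow h3v (by norm_num)) _
  have h3m : ¬ (3 : ℤ) ∣ m := by
    rw [hm]
    unfold M6
    intro h
    rcases h3I.dvd_or_dvd h with h | h
    · exact h3u (h3I.dvd_of_dvd_pow h)
    · apply h3u
      have h1 : (3 : ℤ) ∣ 2 * v := Dvd.dvd.mul_left h3v _
      have h2 := dvd_sub h h1
      simpa using h2
  have h3q : ¬ (3 : ℤ) ∣ m ^ 2 - m * n + n ^ 2 := by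
    intro h
    apply h3m
    apply h3I.dvd_of_dvd_pow (n := 2)
    have h1 : (3 : ℤ) ∣ m * n - n ^ 2 := dvd_sub (Dvd.dvd.mul_left h3n _)
      (dvd_pow h3n (by norm_num))
    have h2 := dvd_add h h1
    have e : m ^ 2 - m * n + n ^ 2 + (m * n - n ^ 2) = m ^ 2 := by ring
    rwa [e] at h2
  by_cases hp3 : p = 3
  · subst hp3
    apply h3q
    have h1 : (3 : ℤ) ^ 3 * 3 ∣ (3 : ℤ) ^ 3 * (-(m ^ 2 - m * n + n ^ 2)) := by
      have e : (3 : ℤ) ^ 3 * (-(m ^ 2 - m * n + n ^ 2)) = A6 u v := by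
        unfold A6
        rw [← hm, ← hn]
        ring
      rw [e]
      have : ((3 : ℕ) : ℤ) ^ 4 = (3 : ℤ) ^ 3 * 3 := by norm_num
      rw [← this]
      exact hA
    have h2 := Int.dvd_of_mul_dvd_mul_left (by norm_num) h1
    exact (Int.dvd_neg).1 h2
  · have hp3' : ¬ (p : ℤ) ∣ 27 := by
      intro h
      have h1 : (p : ℤ) ∣ 3 ^ 3 := by norm_num; exact h
      have h2 := hpI.dvd_of_dvd_pow h1
      have h3 : p ∣ 3 := by exact_mod_cast h2
      rcases (Nat.dvd_prime Nat.prime_three).1 h3 with h4 | h4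
      · exact hp.one_lt.ne' h4
      · exact hp3 h4
    have hq : (p : ℤ) ∣ m ^ 2 - m * n + n ^ 2 := by
      have h1 : (p : ℤ) ∣ A6 u v := (dvd_pow_self _ (by norm_num)).trans hA
      unfold A6 at h1
      rw [← hm, ← hn] at h1
      rcases hpI.dvd_or_dvd h1 with h | h
      · exfalso
        exact hp3' ((Int.dvd_neg).1 h)
      · exact h
    have hmn : (p : ℤ) ∣ m ∧ (p : ℤ) ∣ n := by
      have h1 : (p : ℤ) ∣ B6 u v := (dvd_pow_self _ (by norm_num)).trans hB
      unfold B6 at h1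
      rw [← hm, ← hn] at h1
      have hp3'' : ¬ (p : ℤ) ∣ 3 := fun h => hp3' (h.trans (by norm_num))
      rcases hpI.dvd_or_dvd h1 with h | h
      · exact absurd h hp3'
      rcases hpI.dvd_or_dvd h with h | h
      · have h2 : (p : ℤ) ∣ 3 * m ^ 2 := by
          have := dvd_add hq (Dvd.dvd.mul_left h (2 * m - n))
          have e : m ^ 2 - m * n + n ^ 2 + (2 * m - n) * (m + n) = 3 * m ^ 2 := by ring
          rwa [e] at this
        rcases hpI.dvd_or_dvd h2 with h3 | h3
        · exact absurd h3 hp3''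
        · have h4 := hpI.dvd_of_dvd_pow h3
          refine ⟨h4, ?_⟩
          have := dvd_sub h h4
          simpa using this
      rcases hpI.dvd_or_dvd h with h | h
      · have h2 : (p : ℤ) ∣ 3 * m ^ 2 := by
          have := dvd_add hq (Dvd.dvd.mul_left h (m + n))
          have e : m ^ 2 - m * n + n ^ 2 + (m + n) * (2 * m - n) = 3 * m ^ 2 := by ring
          rwa [e] at this
        rcases hpI.dvd_or_dvd h2 with h3 | h3
        · exact absurd h3 hp3''
        · have h4 := hpI.dvd_of_dvd_pow h3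
          refine ⟨h4, ?_⟩
          have := dvd_sub (Dvd.dvd.mul_left h4 2) h
          have e : 2 * m - (2 * m - n) = n := by ring
          rwa [e] at this
      · have h2 : (p : ℤ) ∣ 3 * n ^ 2 := by
          have := dvd_sub hq (Dvd.dvd.mul_left h (m + n))
          have e : m ^ 2 - m * n + n ^ 2 - (m + n) * (m - 2 * n) = 3 * n ^ 2 := by ring
          rwa [e] at this
        rcases hpI.dvd_or_dvd h2 with h3 | h3
        · exact absurd h3 hp3''
        · have h4 := hpI.dvd_of_dvd_pow h3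
          refine ⟨?_, h4⟩
          have := dvd_add h (Dvd.dvd.mul_left h4 2)
          have e : m - 2 * n + 2 * n = m := by ring
          rwa [e] at this
    obtain ⟨hpm, hpn⟩ := hmn
    have hcop : ¬ ((p : ℤ) ∣ u ∧ (p : ℤ) ∣ v) := by
      rintro ⟨h1, h2⟩
      exact hpI.not_unit (hc.isUnit_of_dvd' h1 h2)
    rw [hm] at hpm
    rw [hn] at hpn
    unfold M6 at hpm
    unfold N6 at hpn
    have hp3'' : ¬ (p : ℤ) ∣ 3 := fun h => hp3' (h.trans (by norm_num))
    rcases hpI.dvd_or_dvd hpm with h1 | h1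
    · have hpu := hpI.dvd_of_dvd_pow h1
      rcases hpI.dvd_or_dvd hpn with h2 | h2
      · exact hcop ⟨hpu, hpI.dvd_of_dvd_pow h2⟩
      · apply hcop
        refine ⟨hpu, ?_⟩
        have := dvd_sub h2 (Dvd.dvd.mul_left hpu 2)
        simpa using this
    · rcases hpI.dvd_or_dvd hpn with h2 | h2
      · have hpv := hpI.dvd_of_dvd_pow h2
        apply hcop
        refine ⟨?_, hpv⟩
        have := dvd_sub h1 (Dvd.dvd.mul_left hpv 2)
        simpa using this
      · have h3 : (p : ℤ) ∣ 3 * v := by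
          have := dvd_sub (Dvd.dvd.mul_left h1 2) h2
          have e : 2 * (u + 2 * v) - (v + 2 * u) = 3 * v := by ring
          rwa [e] at this
        rcases hpI.dvd_or_dvd h3 with h4 | h4
        · exact hp3'' h4
        · apply hcop
          refine ⟨?_, h4⟩
          have := dvd_sub h1 (Dvd.dvd.mul_left h4 2)
          simpa using this

/-- the roots determine the forms -/
lemma roots_inj {m n m' n' : ℤ} (hn : 0 < n) (hmn : n < m) (hn' : 0 < n') (hmn' : n' < m')
    (hA : m ^ 2 - m * n + n ^ 2 = m' ^ 2 - m' * n' + n' ^ 2)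
    (hB : (m + n) * ((2 * m - n) * (m - 2 * n)) = (m' + n') * ((2 * m' - n') * (m' - 2 * n'))) :
    m = m' ∧ n = n' := by
  -- `m' + n'` is a root of the cubic of `m, n`
  have key : ∀ m n m' n' : ℤ, 0 < n → n < m → 0 < n' → n' < m' →
      m ^ 2 - m * n + n ^ 2 = m' ^ 2 - m' * n' + n' ^ 2 →
      (m + n) * ((2 * m - n) * (m - 2 * n)) = (m' + n') * ((2 * m' - n') * (m' - 2 * n')) →
      m' + n' ≤ m + n ∧ n - 2 * m ≤ n' - 2 * m' := by
    intro m n m' n' hn hmn hn' hmn' hA hB
    have h1 : (m' + n' - (m + n)) * ((m' + n' - (n - 2 * m)) * (m' + n' - (m - 2 * n))) = 0 := by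
      linear_combination (-3 * (m' + n')) * hA + hB
    have h2 : (n' - 2 * m' - (m + n)) * ((n' - 2 * m' - (n - 2 * m)) *
        (n' - 2 * m' - (m - 2 * n))) = 0 := by
      linear_combination (-3 * (n' - 2 * m')) * hA + hB
    constructor
    · rcases mul_eq_zero.1 h1 with h | h
      · linarith
      rcases mul_eq_zero.1 h with h | h <;> linarith
    · rcases mul_eq_zero.1 h2 with h | h
      · linarith
      rcases mul_eq_zero.1 h with h | h <;> linarith
  obtain ⟨h1, h2⟩ := key m n m' n' hn hmn hn' hmn' hA hB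
  obtain ⟨h3, h4⟩ := key m' n' m n hn' hmn' hn hmn hA.symm hB.symm
  constructor <;> omega

/-- the forms determine the parameters -/
lemma forms_inj {u v u' v' : ℤ} (hu : 0 < u) (hv : 0 < v) (hu' : 0 < u') (hv' : 0 < v')
    (hM : M6 u v = M6 u' v') (hN : N6 u v = N6 u' v') : u = u' ∧ v = v' := by
  have key : ∀ u v u' v' : ℤ, 0 < u → 0 < v → 0 < u' → 0 < v' → M6 u v = M6 u' v' →
      N6 u v = N6 u' v' → u' * v < u * v' → False := by
    intro u v u' v' hu hv hu' hv' hM hN h
    have h1 : M6 u v * N6 u' v' = M6 u' v' * N6 u v := by rw [hM, hN]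
    unfold M6 N6 at h1
    set a := u * v' with ha
    set b := u' * v with hb
    have ha0 : 0 < a := by positivity
    have hb0 : 0 < b := by positivity
    have hs : 0 ≤ u * u' + v * v' := by positivity
    have h2 : a ^ 3 * (a + 4 * b + 2 * (u * u' + v * v')) =
        b ^ 3 * (b + 4 * a + 2 * (u * u' + v * v')) := by
      rw [ha, hb]
      linear_combination h1
    have h3 : b ^ 3 < a ^ 3 := pow_lt_pow_left₀ h hb0.le (by norm_num)
    have h4 : b ^ 3 * (b + 4 * a) < a ^ 3 * (a + 4 * b) := by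
      have e : a ^ 3 * (a + 4 * b) - b ^ 3 * (b + 4 * a) =
          (a - b) * (a + b) * ((a ^ 2 + b ^ 2) + 4 * (a * b)) := by ring
      have e2 : 0 < a - b := by linarith
      have e3 : 0 < (a - b) * (a + b) * ((a ^ 2 + b ^ 2) + 4 * (a * b)) := by positivity
      linarith
    have h5 : b ^ 3 * (2 * (u * u' + v * v')) ≤ a ^ 3 * (2 * (u * u' + v * v')) := by
      apply mul_le_mul_of_nonneg_right h3.le
      linarith
    linarith
  have hr : u * v' = u' * v := by
    rcases lt_trichotomy (u' * v) (u * v') with h | h | h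
    · exact (key u v u' v' hu hv hu' hv' hM hN h).elim
    · exact h.symm
    · exact (key u' v' u v hu' hv' hu hv hM.symm hN.symm h).elim
  -- now the ratio is the same
  have hmono : ∀ u v u' v' : ℤ, 0 < u → 0 < v → 0 < u' → 0 < v' → M6 u v = M6 u' v' →
      u * v' = u' * v → u ≤ u' := by
    intro u v u' v' hu hv hu' hv' hM h
    by_contra hcon
    push Not at hcon
    have hvv : v' < v := by
      by_contra hc2
      push Not at hc2
      nlinarith
    unfold M6 at hM
    have h3 : u' ^ 3 < u ^ 3 := pow_lt_pow_left₀ hcon hu'.le (by norm_num)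
    have h4 : u' + 2 * v' < u + 2 * v := by linarith
    have h5 : u' ^ 3 * (u' + 2 * v') < u ^ 3 * (u + 2 * v) :=
      mul_lt_mul'' h3 h4 (by positivity) (by positivity)
    linarith
  have h1 := hmono u v u' v' hu hv hu' hv' hM hr
  have h2 := hmono u' v' u v hu' hv' hu hv hM.symm hr.symm
  have h3 : u = u' := le_antisymm h1 h2
  refine ⟨h3, ?_⟩
  rw [h3] at hr
  exact (mul_left_cancel₀ hu'.ne' hr).symm

theorem inj6 {u v u' v' : ℤ} (hv : 0 < v) (huv : v < u) (hv' : 0 < v') (huv' : v' < u')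
    (hA : A6 u v = A6 u' v') (hB : B6 u v = B6 u' v') : u = u' ∧ v = v' := by
  have h := roots_inj (N6_pos hv huv) (N6_lt hv huv) (N6_pos hv' huv') (N6_lt hv' huv')
    (by unfold A6 at hA; linarith) (by unfold B6 at hB; linarith)
  exact forms_inj (by linarith) hv (by linarith) hv' h.1 h.2

/-- heights -/
lemma height6 {u v T : ℤ} (hv : 0 < v) (huv : v < u) (hT : u ≤ T) :
    4 * |A6 u v| ^ 3 ≤ 229582512 * T ^ 24 ∧ 27 * B6 u v ^ 2 ≤ 229582512 * T ^ 24 := by
  have hu : 0 < u := by linarith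
  have hM := M6_pos hv huv
  have hN := N6_pos hv huv
  have hMN := N6_lt hv huv
  have hMT : M6 u v ≤ 3 * T ^ 4 := by
    unfold M6
    calc u ^ 3 * (u + 2 * v) ≤ u ^ 3 * (3 * u) := by
          apply mul_le_mul_of_nonneg_left (by linarith) (by positivity)
      _ = 3 * u ^ 4 := by ring
      _ ≤ 3 * T ^ 4 := by gcongr
  set m := M6 u v with hm
  set n := N6 u v with hn
  have hA : |A6 u v| ≤ 243 * T ^ 8 := by
    unfold A6
    rw [← hm, ← hn, abs_mul, abs_neg, abs_of_nonneg (show (0 : ℤ) ≤ 27 by norm_num)]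
    have h1 : 0 ≤ m ^ 2 - m * n + n ^ 2 := by nlinarith
    rw [abs_of_nonneg h1]
    have h2 : m ^ 2 - m * n + n ^ 2 ≤ m ^ 2 := by nlinarith
    have h3 : m ^ 2 ≤ (3 * T ^ 4) ^ 2 := by gcongr
    calc 27 * (m ^ 2 - m * n + n ^ 2) ≤ 27 * (3 * T ^ 4) ^ 2 := by linarith
      _ = 243 * T ^ 8 := by ring
  have hB : |B6 u v| ≤ 2916 * T ^ 12 := by
    unfold B6
    rw [← hm, ← hn, abs_mul, abs_mul, abs_mul, abs_of_nonneg (show (0 : ℤ) ≤ 27 by norm_num)]
    have h1 : |m + n| ≤ 2 * m := by rw [abs_le]; constructor <;> linarith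
    have h2 : |2 * m - n| ≤ 2 * m := by rw [abs_le]; constructor <;> linarith
    have h3 : |m - 2 * n| ≤ m := by rw [abs_le]; constructor <;> linarith
    calc 27 * (|m + n| * (|2 * m - n| * |m - 2 * n|)) ≤ 27 * ((2 * m) * ((2 * m) * m)) := by
          gcongr
      _ = 108 * m ^ 3 := by ring
      _ ≤ 108 * (3 * T ^ 4) ^ 3 := by gcongr
      _ = 2916 * T ^ 12 := by ring
  constructor
  · calc 4 * |A6 u v| ^ 3 ≤ 4 * (243 * T ^ 8) ^ 3 := by gcongr
      _ = 57395628 * T ^ 24 := by ring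
      _ ≤ 229582512 * T ^ 24 := by
        have : 0 ≤ T ^ 24 := by positivity
        linarith
  · calc 27 * B6 u v ^ 2 = 27 * |B6 u v| ^ 2 := by rw [sq_abs]
      _ ≤ 27 * (2916 * T ^ 12) ^ 2 := by gcongr
      _ = 229582512 * T ^ 24 := by ring

end Pool.Agent.W376.RTL
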