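import Mathlib
import Pool.Agent.W307.RT.Defs

namespace Pool.Agent.W376.RTL

open Pool.Agent.W307.RT

/-- the coefficient `A` -/
def A6 (u v : ℤ) : ℤ := -27 * (M6 u v ^ 2 - M6 u v * N6 u v + N6 u v ^ 2)

/-- the coefficient `B` -/
def B6 (u v : ℤ) : ℤ :=
  27 * ((M6 u v + N6 u v) * ((2 * M6 u v - N6 u v) * (M6 u v - 2 * N6 u v)))

lemma M6_pos {u v : ℤ} (hv : 0 < v) (huv : v < u) : 0 < M6 u v := by
  unfold M6
  have : 0 < u := by linarith
  positivity

lemma N6_pos {u v : ℤ} (hv : 0 < v) (huv : v < u) : 0 < N6 u v := by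
  unfold N6
  have : 0 < u := by linarith
  positivity

lemma N6_lt {u v : ℤ} (hv : 0 < v) (huv : v < u) : N6 u v < M6 u v := by
  have h : M6 u v - N6 u v = (u - v) * (u + v) ^ 3 := by
    unfold M6 N6
    ring
  have h1 : 0 < u - v := by linarith
  have h2 : 0 < u + v := by linarith
  have h3 : 0 < (u - v) * (u + v) ^ 3 := by positivity
  linarith

lemma disc6 (u v : ℤ) : 4 * A6 u v ^ 3 + 27 * B6 u v ^ 2 =
    -(729 * (M6 u v * (N6 u v * (M6 u v - N6 u v)))) ^ 2 := by
  unfold A6 B6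
  ring

lemma disc6_ne {u v : ℤ} (hv : 0 < v) (huv : v < u) : 4 * A6 u v ^ 3 + 27 * B6 u v ^ 2 ≠ 0 := by
  rw [disc6]
  have h1 := M6_pos hv huv
  have h2 := N6_pos hv huv
  have h3 : 0 < M6 u v - N6 u v := by linarith [N6_lt hv huv]
  have h4 : 0 < (729 * (M6 u v * (N6 u v * (M6 u v - N6 u v)))) ^ 2 := by positivity
  linarith

lemma nonsing {A B : ℤ} (hd : 4 * A ^ 3 + 27 * B ^ 2 ≠ 0) {x y : ℚ}
    (h : y ^ 2 = x ^ 3 + A * x + B) : (Sh A B).toAffine.Nonsingular x y := by
  rw [WeierstrassCurve.Affine.nonsingular_iff, WeierstrassCurve.Affine.equation_iff]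
  refine ⟨?_, ?_⟩
  · simp only [Sh]
    linear_combination h
  · simp only [Sh]
    by_contra hcon
    push Not at hcon
    obtain ⟨h1, h2⟩ := hcon
    have hy : y = 0 := by linarith
    have hA : (A : ℚ) = -3 * x ^ 2 := by linarith
    have hB : (B : ℚ) = 2 * x ^ 3 := by
      rw [hy, hA] at h
      linarith
    apply hd
    have : (4 * (A : ℚ) ^ 3 + 27 * (B : ℚ) ^ 2) = 0 := by
      rw [hA, hB]
      ring
    exact_mod_cast this

/-- points of order two -/
lemma two_tors {A B : ℤ} {x : ℚ} (h : (Sh A B).toAffine.Nonsingular x 0) :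
    addOrderOf (WeierstrassCurve.Affine.Point.some x 0 h) = 2 := by
  have : Fact (Nat.Prime 2) := ⟨Nat.prime_two⟩
  apply addOrderOf_eq_prime
  · rw [two_nsmul]
    apply WeierstrassCurve.Affine.Point.add_self_of_Y_eq
    simp [Sh, WeierstrassCurve.Affine.negY]
  · exact WeierstrassCurve.Affine.Point.some_ne_zero h

/-- points of order three -/
lemma three_tors {A B : ℤ} {x y l : ℚ} (h : (Sh A B).toAffine.Nonsingular x y) (hy : y ≠ 0)
    (hl : 2 * l * y = 3 * x ^ 2 + A) (hl2 : l ^ 2 = 3 * x) :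
    addOrderOf (WeierstrassCurve.Affine.Point.some x y h) = 3 := by
  have : Fact (Nat.Prime 3) := ⟨Nat.prime_three⟩
  have hy' : y ≠ (Sh A B).toAffine.negY x y := by
    simp only [Sh, WeierstrassCurve.Affine.negY]
    intro hcon
    apply hy
    linarith
  have hs : (Sh A B).toAffine.slope x x y y = l := by
    rw [WeierstrassCurve.Affine.slope_of_Y_ne rfl hy']
    simp only [Sh, WeierstrassCurve.Affine.negY]
    rw [div_eq_iff (by intro hcon; apply hy; linarith)]
    linear_combination -hl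
  have hadd := WeierstrassCurve.Affine.Point.add_self_of_Y_ne (h₁ := h) hy'
  have hX : x = (Sh A B).toAffine.addX x x ((Sh A B).toAffine.slope x x y y) := by
    rw [hs]
    simp only [Sh, WeierstrassCurve.Affine.addX]
    linear_combination -hl2
  have h2 : WeierstrassCurve.Affine.Point.some x y h + WeierstrassCurve.Affine.Point.some x y h =
      -WeierstrassCurve.Affine.Point.some x y h := by
    rcases (WeierstrassCurve.Affine.Point.X_eq_iff (h₁ := h)
      (h₂ := WeierstrassCurve.Affine.nonsingular_add h h fun hxy => hy' hxy.right)).1 hX with h3 | h3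
    · exfalso
      rw [← hadd] at h3
      have h4 : WeierstrassCurve.Affine.Point.some x y h = 0 := by
        have := congrArg (fun P => P - WeierstrassCurve.Affine.Point.some x y h) h3
        simpa using this.symm
      exact WeierstrassCurve.Affine.Point.some_ne_zero h h4
    · rw [← hadd] at h3
      have h5 := congrArg Neg.neg h3
      rw [neg_neg] at h5
      exact h5.symm
  apply addOrderOf_eq_prime
  · rw [show (3 : ℕ) = 2 + 1 by norm_num, add_nsmul, two_nsmul, h2, one_nsmul]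
    simp
  · exact WeierstrassCurve.Affine.Point.some_ne_zero h

theorem hasT6 {u v : ℤ} (hv : 0 < v) (huv : v < u) : HasT 6 (Sh (A6 u v) (B6 u v)) := by
  have hd := disc6_ne hv huv
  have hM := M6_pos hv huv
  have hN := N6_pos hv huv
  have hMN := N6_lt hv huv
  set E : ℚ := 3 * ((M6 u v : ℚ) + N6 u v) with hE
  have hu : 0 < u := by linarith
  have e1 : (0 : ℚ) ^ 2 = E ^ 3 + (A6 u v : ℤ) * E + (B6 u v : ℤ) := by
    rw [hE]
    unfold A6 B6
    push_cast
    ring
  have e2 : (0 : ℚ) ^ 2 = (3 * ((N6 u v : ℚ) - 2 * M6 u v)) ^ 3 +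
      (A6 u v : ℤ) * (3 * ((N6 u v : ℚ) - 2 * M6 u v)) + (B6 u v : ℤ) := by
    unfold A6 B6
    push_cast
    ring
  have e3 : (27 * (u : ℚ) ^ 2 * v ^ 2 * (u + v) ^ 2) ^ 2 = (9 * (u : ℚ) ^ 2 * v ^ 2 + E) ^ 3 +
      (A6 u v : ℤ) * (9 * (u : ℚ) ^ 2 * v ^ 2 + E) + (B6 u v : ℤ) := by
    rw [hE]
    unfold A6 B6 M6 N6
    push_cast
    ring
  have n1 := nonsing hd e1
  have n2 := nonsing hd e2
  have n3 := nonsing hd e3
  have o1 := two_tors n1
  have o2 := two_tors n2
  have huq : (0 : ℚ) < u := by exact_mod_cast hu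
  have hvq : (0 : ℚ) < v := by exact_mod_cast hv
  have o3 := three_tors (l := 3 * ((u : ℚ) ^ 2 + u * v + v ^ 2)) n3 (by positivity) (by
    rw [hE]
    unfold A6 M6 N6
    push_cast
    ring) (by
    rw [hE]
    unfold M6 N6
    push_cast
    ring)
  set T2 := WeierstrassCurve.Affine.Point.some E 0 n1 with hT2
  set Q := WeierstrassCurve.Affine.Point.some (3 * ((N6 u v : ℚ) - 2 * M6 u v)) 0 n2 with hQ
  set T3 := WeierstrassCurve.Affine.Point.some (9 * (u : ℚ) ^ 2 * v ^ 2 + E)
    (27 * (u : ℚ) ^ 2 * v ^ 2 * (u + v) ^ 2) n3 with hT3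
  refine ⟨T3 + T2, Q, ?_, o2, ?_⟩
  · rw [(AddCommute.all T3 T2).addOrderOf_add_eq_mul_addOrderOf_of_coprime (by
      rw [o1, o3]; norm_num), o1, o3]
  · intro hmem
    rw [AddSubgroup.mem_zmultiples_iff] at hmem
    obtain ⟨k, hk⟩ := hmem
    have h3 : (3 : ℤ) • T3 = 0 := by
      have := addOrderOf_nsmul_eq_zero T3
      rw [o3] at this
      exact_mod_cast this
    have h2 : (2 : ℤ) • T2 = 0 := by
      have := addOrderOf_nsmul_eq_zero T2
      rw [o1] at this
      exact_mod_cast this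
    have hQ2 : (2 : ℤ) • Q = 0 := by
      have := addOrderOf_nsmul_eq_zero Q
      rw [o2] at this
      exact_mod_cast this
    have h4 : Q = k • T2 := by
      have a1 : Q = (3 : ℤ) • Q := by
        rw [show (3 : ℤ) = 2 + 1 by norm_num, add_zsmul, hQ2, one_zsmul, zero_add]
      have a2 : (3 : ℤ) • (k • (T3 + T2)) = k • T2 := by
        rw [zsmul_add, zsmul_add, zsmul_comm, h3, zsmul_zero, zero_add, zsmul_comm]
        rw [show (3 : ℤ) = 2 + 1 by norm_num, add_zsmul, h2, one_zsmul, zero_add]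
      rw [a1, ← hk, a2]
    have hne : Q ≠ T2 := by
      rw [hQ, hT2]
      intro hcon
      rw [WeierstrassCurve.Affine.Point.some.injEq] at hcon
      have hx := hcon.1
      rw [hE] at hx
      have hMq : (0 : ℚ) < M6 u v := by exact_mod_cast hM
      linarith
    have hQ0 : Q ≠ 0 := WeierstrassCurve.Affine.Point.some_ne_zero _
    rcases Int.even_or_odd' k with ⟨j, hj | hj⟩
    · apply hQ0
      rw [h4, hj, mul_comm, mul_zsmul, h2, zsmul_zero]
    · apply hne
      rw [h4, hj, add_zsmul, mul_comm, mul_zsmul, h2, zsmul_zero, one_zsmul, zero_add]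

end Pool.Agent.W376.RTL
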